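import Pool.Agent.MWA.StmtsP

/-!
# Row CPN of MWA: the numbers of occurrences up to `2`
-/

set_option autoImplicit false

namespace Pool.Agent.MWA.H75

open Pool.Agent.Helper14_MV Pool.Agent.Helper2_MV Pool.Agent.MVO Pool.Agent.MWL Pool.Agent.MWS
open Pool.Agent.MWA

theorem cpn_flat (k c : ℕ) :
    (List.replicate k c).flatMap (fun _ => [0]) = List.replicate k 0 := by
  induction k with
  | zero => rfl
  | succ k ih =>
    rw [List.replicate_succ, List.flatMap_cons, ih, List.replicate_succ]
    rfl

/-- the word `g^m` -/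
def pw (m : ℕ) (g : List ℕ) : List ℕ := (List.replicate m 0).flatMap (fun _ => g)

theorem count_pw (m : ℕ) (g : List ℕ) (c : ℕ) : (pw m g).count c = m * g.count c := by
  induction m with
  | zero => simp [pw]
  | succ m ih =>
    have e : pw (m + 1) g = g ++ pw m g := by
      unfold pw
      rw [List.replicate_succ, List.flatMap_cons]
    rw [e, List.count_append, ih]
    ring

theorem mem_pw {m : ℕ} {g : List ℕ} {c : ℕ} (h : c ∈ pw m g) : c ∈ g := by
  unfold pw at h
  rw [List.mem_flatMap] at h
  obtain ⟨_, _, h⟩ := h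
  exact h

theorem pw_bl (hG : Gw2Stmt) {θ : FIC} (hcl : ClA θ) {m : ℕ} (hm : 2 ≤ m) {g : List ℕ}
    (h0 : g.count 0 = 1) (h1 : g.count 1 = 1) (hg : ∀ c ∈ g, c = 0 ∨ c = 1) :
    ∃ x : Bool, RR θ (pw m g) (bl m m x) := by
  have hok : OkB 0 (fun _ => pw m g) := by
    constructor
    · intro j _ c _ h
      omega
    · intro j _ c hc
      have e : deg 0 (fun _ => (pw m g).count c) = (pw m g).count c := by
        unfold deg
        simp
      show 2 ≤ deg 0 (fun _ => (pw m g).count c)
      rw [e, count_pw]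
      rcases hg c (mem_pw hc) with h | h
      · subst h
        rw [h0]; omega
      · subst h
        rw [h1]; omega
  have h := hG θ hcl 0 (fun _ => pw m g) (fun _ => decide ((pw m g).getLast? = some 0)) hok
    (fun j _ c hc => hg c (mem_pw hc)) (fun i _ _ => by simp)
  refine ⟨decide ((pw m g).getLast? = some 0), ?_⟩
  have e0 : ty (fun _ => pw m g) 0 0 = m := by
    show (pw m g).count 0 = m
    rw [count_pw, h0, mul_one]
  have e1 : ty (fun _ => pw m g) 1 0 = m := by
    show (pw m g).count 1 = m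
    rw [count_pw, h1, mul_one]
  have h' : RR θ (pw m g) (bl (ty (fun _ => pw m g) 0 0) (ty (fun _ => pw m g) 1 0)
    (decide ((pw m g).getLast? = some 0))) := h
  rw [e0, e1] at h'
  exact h'

theorem cpn_key (hG : Gw2Stmt) (hB : BtpStmt) {n : ℕ} {θ : FIC} (hθ : BsP n θ) (hnc : NC2 θ)
    (u v : List ℕ) (h : RR θ u v) (c : ℕ) : ¬ (min (u.count c) 2 < min (v.count c) 2) := by
  intro hlt
  have h1 := (h.filter (fun d => d == c)).sub (fun _ => [0])
  have e1 : ∀ w : List ℕ, w.filter (fun d => d == c) = List.replicate (w.count c) c :=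
    fun w => List.filter_beq c
  rw [e1, e1, cpn_flat, cpn_flat] at h1
  have hA : ∃ m, 2 ≤ m ∧ RR θ [0] (List.replicate m 0) := by
    rcases Nat.lt_or_ge (u.count c) 1 with h0 | h0
    · have hu : u.count c = 0 := by omega
      rw [hu] at h1
      have h2 := h1.append (RR.refl (β := θ) [0])
      have e : List.replicate (v.count c) 0 ++ [0] = List.replicate (v.count c + 1) 0 := by
        rw [List.replicate_succ']
      rw [e] at h2
      exact ⟨v.count c + 1, by omega, h2⟩
    · have hu : u.count c = 1 := by omega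
      rw [hu] at h1
      exact ⟨v.count c, by omega, h1⟩
  obtain ⟨m, hm, hA⟩ := hA
  have hx : RR θ [0, 1] (pw m [0, 1]) := hA.sub (fun _ => [0, 1])
  have hy : RR θ [1, 0] (pw m [1, 0]) := hA.sub (fun _ => [1, 0])
  obtain ⟨x, hx'⟩ := pw_bl hG hθ.cl hm (g := [0, 1]) (by decide) (by decide)
    (fun c hc => by simpa using hc)
  obtain ⟨y, hy'⟩ := pw_bl hG hθ.cl hm (g := [1, 0]) (by decide) (by decide)
    (fun c hc => by
      have h : c = 1 ∨ c = 0 := by simpa using hc
      exact h.symm)
  have hbt := (hB θ hθ.cl hθ.r0).2.2 0 (fun _ => m) (fun _ => m) 0 (le_refl 0) hm hm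
  have hf : ∀ z : Bool, RR θ (bl m m z) (bl m m (!z)) := fun z => hbt (fun _ => z)
  have hxy : RR θ (bl m m x) (bl m m y) := by
    by_cases e : x = y
    · rw [e]; exact RR.refl _
    · have e' : y = !x := by
        cases x <;> cases y <;> simp at e ⊢
      rw [e']; exact hf x
  exact hnc (θ.trans hx (θ.trans hx' (θ.trans hxy (θ.trans hy'.symm hy.symm))))

/-- **CPN** -/
theorem cpn (hG : Gw2Stmt) (hB : BtpStmt) : CpnStmt := by
  intro n β hβ θ hle hnc u v h c
  have h1 := cpn_key hG hB (hβ.mono hle) hnc u v h c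
  have h2 := cpn_key hG hB (hβ.mono hle) hnc v u h.symm c
  omega

end Pool.Agent.MWA.H75
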