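import Pool.Agent.MWA.StmtsP

/-!
# Row DGP of MWA: the degenerate cases of the distributive law
-/

set_option autoImplicit false

namespace Pool.Agent.MWA.H75

open Pool.Agent.Helper14_MV Pool.Agent.Helper2_MV Pool.Agent.MVO Pool.Agent.MWL Pool.Agent.MWS
open Pool.Agent.MWA

theorem dgp_tr {ρ σ τ : FIC} (h1 : ρ ≤ σ) (h2 : σ ≤ τ) : ρ ≤ τ := fun a b h => h2 a b (h1 a b h)

theorem dgp_mono {ρ ρ' σ σ' τ τ' : FIC} (h1 : ρ ≤ ρ') (h2 : σ ≤ σ') (h3 : τ ≤ τ') :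
    psi ρ σ τ ≤ psi ρ' σ' τ' := by
  apply FIC.sup_le
  · exact dgp_tr (FIC.le_inf (dgp_tr (FIC.inf_le_left _ _) h1) (dgp_tr (FIC.inf_le_right _ _) h3))
      (FIC.le_sup_left _ _)
  · exact dgp_tr (FIC.le_inf (dgp_tr (FIC.inf_le_left _ _) h2) (dgp_tr (FIC.inf_le_right _ _) h3))
      (FIC.le_sup_right _ _)

theorem dgp_refl (ρ : FIC) : ρ ≤ ρ := fun _ _ h => h

theorem dgp_swap (ρ σ : FIC) : FIC.sup ρ σ ≤ FIC.sup σ ρ :=
  FIC.sup_le (FIC.le_sup_right _ _) (FIC.le_sup_left _ _)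

/-- **DGP** -/
theorem dgp (hX : MuxStmt) (hA : DgaStmt) (hB : DgbStmt) : DgpStmt := by
  intro n β hβ hcap hN ρ σ τ hρ hσ hτ u v hs ht
  obtain ⟨m1, m2, _, _⟩ := hX
  have nI : ∀ κ, NC2 (FIC.inf κ mu) := fun κ h => m1 (FIC.inf_le_right κ mu _ _ h)
  by_cases hτn : NC2 τ
  · have hτm : τ ≤ mu := m2 β τ hcap hτ hτn
    have hβm : β ≤ mu := dgp_tr hτ hτm
    have h1 := hB n β hβ hcap ρ σ hρ hσ u v hs (hτm _ _ ht)
    have h2 := hN (FIC.inf ρ mu) (FIC.inf σ mu) τ (FIC.le_inf hρ hβm) (FIC.le_inf hσ hβm) hτ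
      (nI ρ) (nI σ) hτn u v h1 ht
    exact dgp_mono (FIC.inf_le_left _ _) (FIC.inf_le_left _ _) (dgp_refl τ) _ _ h2
  · by_cases hρn : NC2 ρ
    · by_cases hσn : NC2 σ
      · have hρm : ρ ≤ mu := m2 β ρ hcap hρ hρn
        have hσm : σ ≤ mu := m2 β σ hcap hσ hσn
        have hβm : β ≤ mu := dgp_tr hρ hρm
        have hm : RR mu u v := FIC.sup_le hρm hσm _ _ hs
        have ht' : RR (FIC.inf τ mu) u v := ⟨ht, hm⟩
        have h2 := hN ρ σ (FIC.inf τ mu) hρ hσ (FIC.le_inf hτ hβm) hρn hσn (nI τ) u v hs ht'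
        exact dgp_mono (dgp_refl ρ) (dgp_refl σ) (FIC.inf_le_left _ _) _ _ h2
      · have h1 := hA σ ρ τ hσn hτn u v (dgp_swap ρ σ _ _ hs) ht
        exact dgp_swap (FIC.inf σ τ) (FIC.inf ρ τ) _ _ h1
    · exact hA ρ σ τ hρn hτn u v hs ht

end Pool.Agent.MWA.H75
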