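import Pool.Agent.MWA.Stmts

/-!
# Row GW2 of MWA: every two letter word is gathered
-/

namespace Pool.Agent.MWA.H75

open Pool.Agent.Helper14_MV Pool.Agent.Helper2_MV Pool.Agent.MVO Pool.Agent.MWL Pool.Agent.MWS
open Pool.Agent.MWA

theorem count_bl (p q : ℕ) (e : Bool) (c : ℕ) :
    (bl p q e).count c = (if c = 0 then p else 0) + (if c = 1 then q else 0) := by
  have h0 : ∀ m : ℕ, (List.replicate m 0).count c = if c = 0 then m else 0 := by
    intro m
    by_cases hc : c = 0
    · subst hc
      rw [List.count_replicate_self, if_pos rfl]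
    · rw [if_neg hc]
      exact List.count_eq_zero.2 (fun h => hc (List.eq_of_mem_replicate h))
  have h1 : ∀ m : ℕ, (List.replicate m 1).count c = if c = 1 then m else 0 := by
    intro m
    by_cases hc : c = 1
    · subst hc
      rw [List.count_replicate_self, if_pos rfl]
    · rw [if_neg hc]
      exact List.count_eq_zero.2 (fun h => hc (List.eq_of_mem_replicate h))
  unfold bl
  cases e
  · rw [if_neg (by decide), List.count_append, h0, h1]
  · rw [if_pos rfl, List.count_append, h0, h1, add_comm]

theorem last_rep (l : List ℕ) (c m : ℕ) (hm : m ≠ 0) :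
    (l ++ List.replicate m c).getLast? = some c := by
  obtain ⟨n, rfl⟩ : ∃ n, m = n + 1 := ⟨m - 1, by omega⟩
  rw [List.replicate_succ', ← List.append_assoc, List.getLast?_concat]

/-- **GW2** -/
theorem gw2 (hT : TnfStmt) : Gw2Stmt := by
  intro β hβ k B e hB h2 he
  have hcount : ∀ j ≤ k, ∀ c, (B j).count c = (bl (ty B 0 j) (ty B 1 j) (e j)).count c := by
    intro j hj c
    rw [count_bl]
    by_cases hc0 : c = 0
    · subst hc0
      rw [if_pos rfl, if_neg (by decide), add_zero]
      rfl
    · by_cases hc1 : c = 1
      · subst hc1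
        rw [if_neg hc0, if_pos rfl, zero_add]
        rfl
      · rw [if_neg hc0, if_neg hc1, add_zero]
        apply List.count_eq_zero.2
        intro h
        rcases h2 j hj c h with h3 | h3
        · exact hc0 h3
        · exact hc1 h3
  have hmem : ∀ j ≤ k, ∀ c ∈ bl (ty B 0 j) (ty B 1 j) (e j), c ∈ B j := by
    intro j hj c hc
    by_contra h
    have h3 := hcount j hj c
    rw [List.count_eq_zero.2 h] at h3
    exact absurd (List.count_pos_iff.2 hc) (by omega)
  apply hT β hβ k B (fun j => bl (ty B 0 j) (ty B 1 j) (e j)) hB
  · constructor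
    · intro j hj c hc
      exact hB.ok j hj c (hmem j hj c hc)
    · intro j hj c hc
      have h3 := hB.ml j hj c (hmem j hj c hc)
      have h4 : deg k (fun j => (B j).count c) =
          deg k (fun j => (bl (ty B 0 j) (ty B 1 j) (e j)).count c) := by
        unfold deg
        apply Finset.sum_congr rfl
        intro t ht
        exact hcount t (Nat.le_of_lt_succ (Finset.mem_range.1 ht)) c
      rw [h4] at h3
      exact h3
  · exact h2
  · intro j hj c hc
    exact h2 j hj c (hmem j hj c hc)
  · exact hcount
  · intro i h0 h1
    have hp : ty B 0 i ≠ 0 := h0.2.1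
    have hq : ty B 1 i ≠ 0 := h1.2.1
    have hne : B i ≠ [] := by
      intro h
      apply hp
      unfold ty
      rw [h]
      rfl
    have hlast : (B i).getLast? = some ((B i).getLast hne) := List.getLast?_eq_some_getLast hne
    have hm := h2 i h0.1 _ (List.getLast_mem hne)
    have hei := he i h0 h1
    show (B i).getLast? = (bl (ty B 0 i) (ty B 1 i) (e i)).getLast?
    unfold bl
    cases hb : e i
    · rw [if_neg (by decide), last_rep _ _ _ hq]
      rcases hm with h3 | h3
      · exfalso
        rw [h3] at hlast
        have := hei.2 hlast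
        rw [hb] at this
        exact absurd this (by decide)
      · rw [hlast, h3]
    · rw [if_pos rfl, last_rep _ _ _ hp]
      exact hei.1 hb

end Pool.Agent.MWA.H75
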